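import Pool.Agent.Helper48_UR.Ucount

/-!
# GFU (MP_c97607_co)
-/

namespace Pool.Agent.Helper48_UR

open Pool.Agent.Helper21_UR

/-- Generic version of `hh`. -/
noncomputable def hg {𝕜 : Type*} [CommSemiring 𝕜] (q : 𝕜) : ℕ → ℕ → 𝕜
  | 0, 0 => 1
  | 0, _ + 1 => 0
  | _ + 1, 0 => 1
  | c + 1, r + 1 => hg q c (r + 1) + q ^ (c + 1) * hg q (c + 1) r
termination_by c r => (c, r)

lemma hh_eq (q : ℂ) : ∀ c r : ℕ, hh q c r = hg q c r
  | 0, 0 => by rw [hh, hg]
  | 0, _ + 1 => by rw [hh, hg]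
  | _ + 1, 0 => by rw [hh, hg]
  | c + 1, r + 1 => by
    rw [hh, hg, hh_eq q c (r + 1), hh_eq q (c + 1) r]
termination_by c r => (c, r)

lemma hasSum_shift {𝕜 : Type*} [AddCommMonoid 𝕜] [TopologicalSpace 𝕜] {f : ℕ → 𝕜} {a : 𝕜}
    (h : HasSum f a) (d : ℕ) : HasSum (fun s => if d ≤ s then f (s - d) else 0) a := by
  have hinj : Function.Injective (fun s : ℕ => s + d) := fun x y hxy => by
    simpa using hxy
  have he : (fun s => if d ≤ s then f (s - d) else 0) ∘ (fun s : ℕ => s + d) = f := by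
    ext s
    simp
  rw [← hinj.hasSum_iff, he]
  · exact h
  · intro s hs
    rw [if_neg]
    intro hds
    exact hs ⟨s - d, Nat.sub_add_cancel hds⟩

lemma hasSum_shift_pow {𝕜 : Type*} [CommSemiring 𝕜] [TopologicalSpace 𝕜]
    [IsTopologicalSemiring 𝕜] {q : 𝕜} {f : ℕ → ℕ} {a : 𝕜}
    (h : HasSum (fun s => (f s : 𝕜) * q ^ s) a) (d : ℕ) :
    HasSum (fun s => ((if d ≤ s then f (s - d) else 0 : ℕ) : 𝕜) * q ^ s) (q ^ d * a) := by
  have h1 := hasSum_shift (h.mul_left (q ^ d)) d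
  have he : (fun s => if d ≤ s then q ^ d * ((f (s - d) : 𝕜) * q ^ (s - d)) else 0) =
      fun s => ((if d ≤ s then f (s - d) else 0 : ℕ) : 𝕜) * q ^ s := by
    ext s
    split_ifs with hs
    · rw [mul_left_comm, ← pow_add, Nat.add_sub_cancel' hs]
    · simp
  rw [he] at h1
  exact h1

lemma hasSum_Lc {𝕜 : Type*} [CommSemiring 𝕜] [TopologicalSpace 𝕜]
    [IsTopologicalSemiring 𝕜] (q : 𝕜) :
    ∀ c r : ℕ, HasSum (fun s => (Lc c r s : 𝕜) * q ^ s) (hg q c r)
  | 0, 0 => by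
    rw [hg]
    have he : (fun s => (Lc 0 0 s : 𝕜) * q ^ s) = fun s => if s = 0 then 1 else 0 := by
      ext s
      rw [Lc]
      split_ifs with hs
      · subst hs; simp
      · simp
    rw [he]
    exact hasSum_ite_eq 0 1
  | 0, r + 1 => by
    rw [hg]
    have he : (fun s => (Lc 0 (r + 1) s : 𝕜) * q ^ s) = fun s => 0 := by
      ext s
      rw [Lc]
      simp
    rw [he]
    exact hasSum_zero
  | c + 1, 0 => by
    rw [hg]
    have he : (fun s => (Lc (c + 1) 0 s : 𝕜) * q ^ s) = fun s => if s = 0 then 1 else 0 := by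
      ext s
      rw [Lc]
      split_ifs with hs
      · subst hs; simp
      · simp
    rw [he]
    exact hasSum_ite_eq 0 1
  | c + 1, r + 1 => by
    rw [hg]
    have h1 := (hasSum_Lc q c (r + 1)).add (hasSum_shift_pow (hasSum_Lc q (c + 1) r) (c + 1))
    have he : (fun s => (Lc (c + 1) (r + 1) s : 𝕜) * q ^ s) = fun s =>
        (Lc c (r + 1) s : 𝕜) * q ^ s +
          ((if c + 1 ≤ s then Lc (c + 1) r (s - (c + 1)) else 0 : ℕ) : 𝕜) * q ^ s := by
      ext s
      rw [Lc]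
      push_cast
      ring
    rw [he]
    exact h1
termination_by c r => (c, r)

lemma Lc_eq_zero {c r s : ℕ} (h : s < r) : Lc c r s = 0 := by
  rw [← wg_card]
  have : WG c r s = ∅ := by
    ext l
    constructor
    · rintro ⟨-, h2, h3, h4⟩
      have := length_le_sum (l := l) (fun a ha => (h2 a ha).1)
      omega
    · intro h
      exact absurd h (Set.notMem_empty _)
  rw [this, Set.ncard_empty]

lemma hg_nonneg {p : ℝ} (hp : 0 ≤ p) : ∀ c r : ℕ, 0 ≤ hg p c r
  | 0, 0 => by rw [hg]; norm_num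
  | 0, _ + 1 => by rw [hg]
  | _ + 1, 0 => by rw [hg]; norm_num
  | c + 1, r + 1 => by
    rw [hg]
    have h1 := hg_nonneg hp c (r + 1)
    have h2 := hg_nonneg hp (c + 1) r
    positivity
termination_by c r => (c, r)

lemma norm_hh_le (q : ℂ) : ∀ c r : ℕ, ‖hh q c r‖ ≤ hg ‖q‖ c r
  | 0, 0 => by rw [hh, hg]; norm_num
  | 0, _ + 1 => by rw [hh, hg]; norm_num
  | _ + 1, 0 => by rw [hh, hg]; norm_num
  | c + 1, r + 1 => by
    rw [hh, hg]
    refine (norm_add_le _ _).trans ?_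
    rw [norm_mul, norm_pow]
    have h1 := norm_hh_le q c (r + 1)
    have h2 := norm_hh_le q (c + 1) r
    gcongr
termination_by c r => (c, r)

/-- The product bounding `hg`. -/
noncomputable def Eb (p : ℝ) (c : ℕ) : ℝ := ∏ j ∈ Finset.range c, (1 - p ^ (j + 1))⁻¹

lemma Eb_pos {p : ℝ} (h0 : 0 ≤ p) (h1 : p < 1) (c : ℕ) : 0 < Eb p c := by
  refine Finset.prod_pos fun j _ => ?_
  have : p ^ (j + 1) < 1 := pow_lt_one₀ h0 h1 (by omega)
  rw [inv_pos]
  linarith

lemma hg_le {p : ℝ} (h0 : 0 ≤ p) (h1 : p < 1) (c : ℕ) :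
    ∀ r : ℕ, hg p (c + 1) r ≤ p ^ r * Eb p c := by
  induction c with
  | zero =>
    intro r
    induction r with
    | zero => rw [hg]; simp [Eb]
    | succ r ih =>
      rw [hg, hg]
      simp only [Eb, Finset.range_zero, Finset.prod_empty, mul_one, zero_add, pow_one] at ih ⊢
      rw [pow_succ']
      exact mul_le_mul_of_nonneg_left ih h0
  | succ c ihc =>
    have hpc : p ^ (c + 1) < 1 := pow_lt_one₀ h0 h1 (by omega)
    have hE : Eb p (c + 1) * (1 - p ^ (c + 1)) = Eb p c := by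
      rw [Eb, Finset.prod_range_succ, mul_assoc, inv_mul_cancel₀ (by linarith), mul_one, Eb]
    have hE0 := Eb_pos h0 h1 (c + 1)
    have hEc := Eb_pos h0 h1 c
    intro r
    induction r with
    | zero =>
      rw [hg, pow_zero, one_mul]
      have h2 : 1 ≤ Eb p c := by
        have := ihc 0
        rw [hg, pow_zero, one_mul] at this
        exact this
      have h3 : Eb p c ≤ Eb p (c + 1) := by
        rw [← hE]
        have : 0 ≤ p ^ (c + 1) := by positivity
        nlinarith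
      linarith
    | succ r ih =>
      rw [hg]
      have h3 := ihc (r + 1)
      have h4 : p ^ (c + 1 + 1) * hg p (c + 1 + 1) r ≤ p ^ (c + 1 + 1) * (p ^ r * Eb p (c + 1)) :=
        mul_le_mul_of_nonneg_left ih (by positivity)
      calc hg p (c + 1) (r + 1) + p ^ (c + 1 + 1) * hg p (c + 1 + 1) r
          ≤ p ^ (r + 1) * Eb p c + p ^ (c + 1 + 1) * (p ^ r * Eb p (c + 1)) := by linarith
        _ = p ^ (r + 1) * Eb p (c + 1) := by rw [← hE]; ring

lemma Eb_le {p : ℝ} (h0 : 0 ≤ p) (h1 : p < 1) (c : ℕ) :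
    Eb p c ≤ Real.exp (p / (1 - p) ^ 2) := by
  have h2 : Eb p c ≤ ∏ j ∈ Finset.range c, Real.exp (p ^ (j + 1) / (1 - p)) := by
    refine Finset.prod_le_prod (fun j _ => ?_) (fun j _ => ?_)
    · have : p ^ (j + 1) < 1 := pow_lt_one₀ h0 h1 (by omega)
      rw [inv_nonneg]
      linarith
    · have h3 : p ^ (j + 1) < 1 := pow_lt_one₀ h0 h1 (by omega)
      have h4 : p ^ (j + 1) ≤ p := by
        rw [pow_succ]
        have : p ^ j ≤ 1 := pow_le_one₀ h0 h1.le
        nlinarith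
      have h5 : 0 ≤ p ^ (j + 1) := by positivity
      calc (1 - p ^ (j + 1))⁻¹ = p ^ (j + 1) / (1 - p ^ (j + 1)) + 1 := by
            have h6 : 1 - p ^ (j + 1) ≠ 0 := by linarith
            rw [inv_eq_one_div, div_add_one h6]
            congr 1
            ring
        _ ≤ Real.exp (p ^ (j + 1) / (1 - p ^ (j + 1))) := Real.add_one_le_exp _
        _ ≤ Real.exp (p ^ (j + 1) / (1 - p)) := by
            apply Real.exp_le_exp.mpr
            apply div_le_div_of_nonneg_left h5 (by linarith) (by linarith)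
  refine h2.trans ?_
  rw [← Real.exp_sum]
  apply Real.exp_le_exp.mpr
  rw [← Finset.sum_div, sq, ← div_div]
  apply div_le_div_of_nonneg_right _ (by linarith)
  have h6 : ∑ i ∈ Finset.range c, p ^ (i + 1) = p * ∑ i ∈ Finset.range c, p ^ i := by
    rw [Finset.mul_sum]
    exact Finset.sum_congr rfl fun i _ => by ring
  rw [h6, geom_sum_eq (by linarith)]
  rw [← neg_div_neg_eq, mul_div_assoc']
  have h7 : -(p - 1) = 1 - p := by ring
  rw [h7]
  apply div_le_div_of_nonneg_right _ (by linarith)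
  have : 0 ≤ p ^ c := by positivity
  nlinarith

/-- Coefficients of the block `(c, r)`. -/
def Ab (m c r n : ℕ) : ℕ :=
  ∑ p ∈ Finset.HasAntidiagonal.antidiagonal n, Lc (c + 1) r p.1 * Lc (c + 1) (r + m) p.2

lemma hasSum_Ab {𝕜 : Type*} [RCLike 𝕜] (q : 𝕜) (m c r : ℕ) :
    HasSum (fun n => (Ab m c r n : 𝕜) * q ^ n) (hg q (c + 1) r * hg q (c + 1) (r + m)) := by
  have h1 := hasSum_Lc q (c + 1) r
  have h2 := hasSum_Lc q (c + 1) (r + m)
  have n1 : Summable fun s => ‖(Lc (c + 1) r s : 𝕜) * q ^ s‖ := h1.summable.norm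
  have n2 : Summable fun s => ‖(Lc (c + 1) (r + m) s : 𝕜) * q ^ s‖ := h2.summable.norm
  have h3 := tsum_mul_tsum_eq_tsum_sum_antidiagonal_of_summable_norm n1 n2
  have h4 := (summable_norm_sum_mul_antidiagonal_of_summable_norm n1 n2).of_norm.hasSum
  rw [← h3, h1.tsum_eq, h2.tsum_eq] at h4
  have he : (fun n => ∑ kl ∈ Finset.HasAntidiagonal.antidiagonal n, (Lc (c + 1) r kl.1 : 𝕜) * q ^ kl.1 *
      ((Lc (c + 1) (r + m) kl.2 : 𝕜) * q ^ kl.2)) = fun n => (Ab m c r n : 𝕜) * q ^ n := by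
    ext n
    rw [Ab, Nat.cast_sum, Finset.sum_mul]
    refine Finset.sum_congr rfl fun p hp => ?_
    rw [Finset.HasAntidiagonal.mem_antidiagonal] at hp
    rw [← hp, pow_add]
    push_cast
    ring
  rw [he] at h4
  exact h4

/-- The full family. -/
noncomputable def Fam {𝕜 : Type*} [RCLike 𝕜] (q : 𝕜) (m : ℕ) (x : (ℕ × ℕ) × ℕ) : 𝕜 :=
  ((if x.1.1 + 1 ≤ x.2 then Ab m x.1.1 x.1.2 (x.2 - (x.1.1 + 1)) else 0 : ℕ) : 𝕜) * q ^ x.2

lemma hasSum_Fam {𝕜 : Type*} [RCLike 𝕜] (q : 𝕜) (m : ℕ) (x : ℕ × ℕ) :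
    HasSum (fun n => Fam q m (x, n))
      (q ^ (x.1 + 1) * (hg q (x.1 + 1) x.2 * hg q (x.1 + 1) (x.2 + m))) :=
  hasSum_shift_pow (hasSum_Ab q m x.1 x.2) (x.1 + 1)

lemma norm_Fam (q : ℂ) (m : ℕ) (x : (ℕ × ℕ) × ℕ) : ‖Fam q m x‖ = Fam (‖q‖ : ℝ) m x := by
  rw [Fam, Fam, norm_mul, norm_pow, Complex.norm_natCast]

lemma Fam_nonneg {p : ℝ} (hp : 0 ≤ p) (m : ℕ) (x : (ℕ × ℕ) × ℕ) : 0 ≤ Fam p m x := by
  rw [Fam]
  positivity

lemma summable_Fam {p : ℝ} (h0 : 0 ≤ p) (h1 : p < 1) (m : ℕ) : Summable (Fam p m) := by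
  rw [summable_prod_of_nonneg (fun x => Fam_nonneg h0 m x)]
  refine ⟨fun x => (hasSum_Fam p m x).summable, ?_⟩
  simp_rw [fun x => (hasSum_Fam p m x).tsum_eq]
  set K := Real.exp (p / (1 - p) ^ 2) with hK
  have hg1 : Summable fun c : ℕ => p ^ c := summable_geometric_of_lt_one h0 h1
  have hg2 : Summable fun x : ℕ × ℕ => p ^ x.1 * p ^ x.2 :=
    hg1.mul_of_nonneg hg1 (fun c => by positivity) (fun c => by positivity)
  refine Summable.of_nonneg_of_le (fun x => ?_) (fun x => ?_) (hg2.mul_left (K ^ 2))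
  · have := hg_nonneg h0 (x.1 + 1) x.2
    have := hg_nonneg h0 (x.1 + 1) (x.2 + m)
    positivity
  · have a0 := hg_nonneg h0 (x.1 + 1) x.2
    have b0 := hg_nonneg h0 (x.1 + 1) (x.2 + m)
    have a1 := hg_le h0 h1 x.1 x.2
    have b1 := hg_le h0 h1 x.1 (x.2 + m)
    have e1 := Eb_le h0 h1 x.1
    have e0 := Eb_pos h0 h1 x.1
    have a2 : hg p (x.1 + 1) x.2 ≤ K * p ^ x.2 := by
      refine a1.trans ?_
      rw [mul_comm]
      gcongr
    have b2 : hg p (x.1 + 1) (x.2 + m) ≤ K := by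
      refine b1.trans ?_
      have : p ^ (x.2 + m) ≤ 1 := pow_le_one₀ h0 h1.le
      calc p ^ (x.2 + m) * Eb p x.1 ≤ 1 * K := by gcongr
        _ = K := one_mul K
    have c1 : p ^ (x.1 + 1) ≤ p ^ x.1 := by
      rw [pow_succ]
      have : 0 ≤ p ^ x.1 := by positivity
      nlinarith
    have hK0 : 0 < K := Real.exp_pos _
    calc p ^ (x.1 + 1) * (hg p (x.1 + 1) x.2 * hg p (x.1 + 1) (x.2 + m))
        ≤ p ^ x.1 * ((K * p ^ x.2) * K) := by gcongr
      _ = K ^ 2 * (p ^ x.1 * p ^ x.2) := by ring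

theorem gfu : GfuStatement := by
  intro m q hq
  have h0 : 0 ≤ ‖q‖ := norm_nonneg q
  have hsum : Summable (Fam q m) := by
    refine Summable.of_norm ?_
    refine (summable_Fam h0 hq m).congr ?_
    intro x
    exact (norm_Fam q m x).symm
  set G : ℕ × ℕ → ℂ := fun x => q ^ (x.1 + 1) * (hh q (x.1 + 1) x.2 * hh q (x.1 + 1) (x.2 + m))
    with hG
  set S := ∑' x, Fam q m x with hS
  have hGS : HasSum G S := by
    refine hsum.hasSum.prod_fiberwise (fun x => ?_)
    have := hasSum_Fam q m x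
    rw [← hh_eq, ← hh_eq] at this
    exact this
  -- the norm summability for fixed `c`
  have hr : ∀ c : ℕ, Summable fun r : ℕ => ‖hh q (c + 1) r * hh q (c + 1) (r + m)‖ := by
    intro c
    set K := Real.exp (‖q‖ / (1 - ‖q‖) ^ 2) with hK
    have hK0 : 0 < K := Real.exp_pos _
    refine Summable.of_nonneg_of_le (fun r => norm_nonneg _) (fun r => ?_)
      ((summable_geometric_of_lt_one h0 hq).mul_left (K ^ 2))
    rw [norm_mul]
    have e1 := Eb_le h0 hq c
    have e0 := Eb_pos h0 hq c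
    have a1 := (norm_hh_le q (c + 1) r).trans (hg_le h0 hq c r)
    have b1 := (norm_hh_le q (c + 1) (r + m)).trans (hg_le h0 hq c (r + m))
    have : ‖q‖ ^ (r + m) ≤ 1 := pow_le_one₀ h0 hq.le
    have b2 : ‖hh q (c + 1) (r + m)‖ ≤ K := by
      refine b1.trans ?_
      calc ‖q‖ ^ (r + m) * Eb ‖q‖ c ≤ 1 * K := by gcongr
        _ = K := one_mul K
    have a2 : ‖hh q (c + 1) r‖ ≤ ‖q‖ ^ r * K := by
      refine a1.trans ?_
      gcongr
    calc ‖hh q (c + 1) r‖ * ‖hh q (c + 1) (r + m)‖ ≤ (‖q‖ ^ r * K) * K := by gcongr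
      _ = K ^ 2 * ‖q‖ ^ r := by ring
  have hY : HasSum (fun c : ℕ => q ^ (c + 1) * Yf q (c + 1) m) S := by
    refine hGS.prod_fiberwise (fun c => ?_)
    exact ((hr c).of_norm.hasSum).mul_left (q ^ (c + 1))
  refine ⟨hr, ?_, hY.summable.norm⟩
  rw [hY.tsum_eq]
  have hswap : HasSum (fun x : ℕ × (ℕ × ℕ) => Fam q m (x.2, x.1)) S := by
    have := (Equiv.prodComm ℕ (ℕ × ℕ)).hasSum_iff.mpr hsum.hasSum
    exact this
  refine hswap.prod_fiberwise (fun n => ?_)
  have hu : (u (m : ℤ) n : ℂ) * q ^ n =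
      ∑ x ∈ Finset.range n ×ˢ Finset.range (n + 1), Fam q m (x, n) := by
    rw [ucount m n, Finset.sum_product]
    push_cast
    rw [Finset.sum_mul]
    refine Finset.sum_congr rfl fun c hc => ?_
    rw [Finset.sum_mul]
    refine Finset.sum_congr rfl fun r _ => ?_
    rw [Finset.mem_range] at hc
    have h1 : c + 1 ≤ n := hc
    simp only [Fam, if_pos h1, Ab]
    rw [show n - 1 - c = n - (c + 1) by omega]
    push_cast
    ring
  rw [hu]
  refine hasSum_sum_of_ne_finset_zero ?_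
  rintro ⟨c, r⟩ hx
  simp only [Finset.mem_product, Finset.mem_range, not_and_or, not_lt] at hx
  simp only [Fam]
  split_ifs with h1
  · have hr' : n + 1 ≤ r := by
      rcases hx with hx | hx
      · omega
      · exact hx
    have : Ab m c r (n - (c + 1)) = 0 := by
      rw [Ab]
      refine Finset.sum_eq_zero fun p hp => ?_
      rw [Finset.HasAntidiagonal.mem_antidiagonal] at hp
      rw [Lc_eq_zero (by omega), zero_mul]
    rw [this]
    simp
  · simp

end Pool.Agent.Helper48_UR
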