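import Pool.Agent.Helper48_UR.Gfu

/-!
# P2 (MP_c97607_co)
-/

namespace Pool.Agent.Helper48_UR

open Pool.Agent.Helper21_UR Filter Topology

lemma hasSum_geom_sq {𝕜 : Type*} [RCLike 𝕜] {x : 𝕜} (hx : ‖x‖ < 1) :
    HasSum (fun i : ℕ => ((i + 1 : ℕ) : 𝕜) * x ^ i) ((1 - x)⁻¹ ^ 2) := by
  have h1 := hasSum_coe_mul_geometric_of_norm_lt_one hx
  have h2 := hasSum_geometric_of_norm_lt_one hx
  have h3 := h1.add h2
  have hne : (1 : 𝕜) - x ≠ 0 := by
    intro h
    rw [sub_eq_zero] at h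
    rw [← h] at hx
    simp at hx
  have e1 : x / (1 - x) ^ 2 + (1 - x)⁻¹ = (1 - x)⁻¹ ^ 2 := by
    field_simp
    ring
  rw [e1] at h3
  have e2 : (fun i : ℕ => (i : 𝕜) * x ^ i + x ^ i) = fun i : ℕ => ((i + 1 : ℕ) : 𝕜) * x ^ i := by
    ext i
    push_cast
    ring
  rw [e2] at h3
  exact h3

/-- The family for the step. -/
noncomputable def FP {𝕜 : Type*} [RCLike 𝕜] (q : 𝕜) (J : ℕ) (x : ℕ × ℕ) : 𝕜 :=
  (((x.1 + 1) * (if (J + 1) * x.1 ≤ x.2 then bp J (x.2 - (J + 1) * x.1) else 0) : ℕ) : 𝕜) *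
    q ^ x.2

lemma norm_FP {𝕜 : Type*} [RCLike 𝕜] (q : 𝕜) (J : ℕ) (x : ℕ × ℕ) :
    ‖FP q J x‖ = FP (‖q‖ : ℝ) J x := by
  rw [FP, FP, norm_mul, norm_pow, RCLike.norm_natCast]

lemma FP_nonneg {p : ℝ} (hp : 0 ≤ p) (J : ℕ) (x : ℕ × ℕ) : 0 ≤ FP p J x := by
  rw [FP]
  positivity

lemma hasSum_FP {𝕜 : Type*} [RCLike 𝕜] {q B : 𝕜} {J : ℕ}
    (h : HasSum (fun n => (bp J n : 𝕜) * q ^ n) B) (i : ℕ) :
    HasSum (fun n => FP q J (i, n)) (((i + 1 : ℕ) : 𝕜) * (q ^ (J + 1)) ^ i * B) := by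
  have h1 := (hasSum_shift_pow h ((J + 1) * i)).mul_left ((i + 1 : ℕ) : 𝕜)
  have he : (fun s => ((i + 1 : ℕ) : 𝕜) *
      (((if (J + 1) * i ≤ s then bp J (s - (J + 1) * i) else 0 : ℕ) : 𝕜) * q ^ s)) =
      fun n => FP q J (i, n) := by
    ext s
    rw [FP]
    push_cast
    ring
  rw [he] at h1
  have e2 : ((i + 1 : ℕ) : 𝕜) * (q ^ ((J + 1) * i) * B) =
      ((i + 1 : ℕ) : 𝕜) * (q ^ (J + 1)) ^ i * B := by
    rw [pow_mul]
    ring
  rw [e2] at h1
  exact h1

lemma bp_step {𝕜 : Type*} [RCLike 𝕜] {q B : 𝕜} (hq : ‖q‖ < 1) {J : ℕ} {b : ℝ}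
    (hr : HasSum (fun n => (bp J n : ℝ) * ‖q‖ ^ n) b)
    (h : HasSum (fun n => (bp J n : 𝕜) * q ^ n) B) :
    HasSum (fun n => (bp (J + 1) n : 𝕜) * q ^ n) ((1 - q ^ (J + 1))⁻¹ ^ 2 * B) := by
  have hq1 : ‖q ^ (J + 1)‖ < 1 := by
    rw [norm_pow]
    exact pow_lt_one₀ (norm_nonneg q) hq (by omega)
  have hq2 : ‖‖q‖ ^ (J + 1)‖ < 1 := by
    rw [norm_pow, norm_norm]
    exact pow_lt_one₀ (norm_nonneg q) hq (by omega)
  have hs : Summable (FP q J) := by
    refine Summable.of_norm ?_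
    simp_rw [norm_FP]
    rw [summable_prod_of_nonneg (fun x => FP_nonneg (norm_nonneg q) J x)]
    refine ⟨fun i => (hasSum_FP hr i).summable, ?_⟩
    simp_rw [fun i => (hasSum_FP hr i).tsum_eq]
    exact ((hasSum_geom_sq hq2).summable).mul_right b
  have h1 : HasSum (fun i : ℕ => ((i + 1 : ℕ) : 𝕜) * (q ^ (J + 1)) ^ i * B)
      (∑' x, FP q J x) := hs.hasSum.prod_fiberwise (fun i => hasSum_FP h i)
  have h2 := h1.unique ((hasSum_geom_sq hq1).mul_right B)
  rw [← h2]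
  have hswap : HasSum (fun x : ℕ × ℕ => FP q J (x.2, x.1)) (∑' x, FP q J x) :=
    (Equiv.prodComm ℕ ℕ).hasSum_iff.mpr hs.hasSum
  refine hswap.prod_fiberwise (fun n => ?_)
  have hu : (bp (J + 1) n : 𝕜) * q ^ n = ∑ i ∈ Finset.range (n / (J + 1) + 1), FP q J (i, n) := by
    rw [bp]
    push_cast
    rw [Finset.sum_mul]
    refine Finset.sum_congr rfl fun i hi => ?_
    rw [Finset.mem_range] at hi
    have h3 : (J + 1) * i ≤ n := by
      have h4 : i ≤ n / (J + 1) := by omega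
      calc (J + 1) * i ≤ (J + 1) * (n / (J + 1)) := Nat.mul_le_mul_left _ h4
        _ ≤ n := Nat.mul_div_le n (J + 1)
    simp only [FP, if_pos h3]
    push_cast
    ring
  rw [hu]
  refine hasSum_sum_of_ne_finset_zero ?_
  intro i hi
  rw [Finset.mem_range, not_lt] at hi
  have h3 : ¬ (J + 1) * i ≤ n := by
    intro h4
    have : i ≤ n / (J + 1) := by
      rw [Nat.le_div_iff_mul_le (by omega), mul_comm]
      exact h4
    omega
  simp [FP, if_neg h3]

lemma hasSum_bp_real {p : ℝ} (h0 : 0 ≤ p) (hp : p < 1) (J : ℕ) :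
    HasSum (fun n => (bp J n : ℝ) * p ^ n) ((∏ j ∈ Finset.range J, (1 - p ^ (j + 1)))⁻¹ ^ 2) := by
  induction J with
  | zero =>
    have he : (fun s => (bp 0 s : ℝ) * p ^ s) = fun s => if s = 0 then 1 else 0 := by
      ext s
      rw [bp]
      split_ifs with hs
      · subst hs; simp
      · simp
    rw [he]
    simp only [Finset.range_zero, Finset.prod_empty, inv_one, one_pow]
    exact hasSum_ite_eq 0 1
  | succ J ih =>
    have hn : ‖p‖ = p := by rw [Real.norm_eq_abs, abs_of_nonneg h0]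
    have := bp_step (q := p) (by rw [hn]; exact hp) (J := J) (by rw [hn]; exact ih) ih
    rw [Finset.prod_range_succ, mul_inv, mul_pow, mul_comm]
    exact this

lemma hasSum_bp {q : ℂ} (hq : ‖q‖ < 1) (J : ℕ) :
    HasSum (fun n => (bp J n : ℂ) * q ^ n) ((∏ j ∈ Finset.range J, (1 - q ^ (j + 1)))⁻¹ ^ 2) := by
  induction J with
  | zero =>
    have he : (fun s => (bp 0 s : ℂ) * q ^ s) = fun s => if s = 0 then 1 else 0 := by
      ext s
      rw [bp]
      split_ifs with hs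
      · subst hs; simp
      · simp
    rw [he]
    simp only [Finset.range_zero, Finset.prod_empty, inv_one, one_pow]
    exact hasSum_ite_eq 0 1
  | succ J ih =>
    have := bp_step hq (hasSum_bp_real (norm_nonneg q) hq J) ih
    rw [Finset.prod_range_succ, mul_inv, mul_pow, mul_comm]
    exact this

lemma bp_le_succ (J n : ℕ) : bp J n ≤ bp (J + 1) n := by
  rw [bp, Finset.sum_range_succ']
  simp

lemma bp_succ_eq {J n : ℕ} (h : n ≤ J) : bp (J + 1) n = bp J n := by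
  rw [bp]
  have : n / (J + 1) = 0 := Nat.div_eq_of_lt (by omega)
  rw [this]
  simp

lemma bp_stable (n k : ℕ) : bp (n + k) n = bp n n := by
  induction k with
  | zero => rfl
  | succ k ih => rw [← add_assoc, bp_succ_eq (by omega), ih]

lemma bp_le (J n : ℕ) : bp J n ≤ bp n n := by
  rcases le_total n J with h | h
  · obtain ⟨k, rfl⟩ := Nat.exists_eq_add_of_le h
    exact (bp_stable n k).le
  · exact monotone_nat_of_le_succ (f := fun J => bp J n) (fun J => bp_le_succ J n) h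

lemma prod_real_inv_le {p : ℝ} (h0 : 0 ≤ p) (hp : p < 1) (J : ℕ) :
    (∏ j ∈ Finset.range J, (1 - p ^ (j + 1)))⁻¹ ≤ Real.exp (p / (1 - p) ^ 2) := by
  rw [← Finset.prod_inv_distrib]
  exact Eb_le h0 hp J

lemma summable_bpp {p : ℝ} (h0 : 0 ≤ p) (hp : p < 1) :
    Summable (fun n => (bp n n : ℝ) * p ^ n) := by
  refine summable_of_sum_range_le (c := Real.exp (p / (1 - p) ^ 2) ^ 2)
    (fun n => by positivity) ?_
  intro N
  have h1 : ∑ n ∈ Finset.range N, (bp n n : ℝ) * p ^ n =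
      ∑ n ∈ Finset.range N, (bp N n : ℝ) * p ^ n := by
    refine Finset.sum_congr rfl fun n hn => ?_
    rw [Finset.mem_range] at hn
    obtain ⟨k, rfl⟩ := Nat.exists_eq_add_of_le hn.le
    rw [bp_stable]
  rw [h1]
  have h2 := hasSum_bp_real h0 hp N
  refine (sum_le_hasSum _ (fun i _ => by positivity) h2).trans ?_
  have h3 := prod_real_inv_le h0 hp N
  have h4 : 0 < ∏ j ∈ Finset.range N, (1 - p ^ (j + 1)) := by
    refine Finset.prod_pos fun j _ => ?_
    have : p ^ (j + 1) < 1 := pow_lt_one₀ h0 hp (by omega)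
    linarith
  have h5 : 0 < (∏ j ∈ Finset.range N, (1 - p ^ (j + 1)))⁻¹ := inv_pos.mpr h4
  gcongr

lemma tendsto_QP {q : ℂ} (hq : ‖q‖ < 1) :
    Tendsto (fun J => ∏ j ∈ Finset.range J, (1 - q ^ (j + 1))) atTop (𝓝 (QP q)) := by
  have h1 : Summable fun j : ℕ => -q ^ (j + 1) := by
    refine Summable.neg ?_
    have := summable_geometric_of_norm_lt_one hq
    exact (summable_nat_add_iff 1).mpr this
  have h2 := (Complex.multipliable_one_add_of_summable h1)
  have h3 := h2.hasProd.tendsto_prod_nat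
  simp only [← sub_eq_add_neg] at h3
  exact h3

lemma QP_ne_zero {q : ℂ} (hq : ‖q‖ < 1) : QP q ≠ 0 := by
  intro h
  have h1 := (tendsto_QP hq).norm
  rw [h, norm_zero] at h1
  have h2 : ∀ J : ℕ, (Real.exp (‖q‖ / (1 - ‖q‖) ^ 2))⁻¹ ≤
      ‖∏ j ∈ Finset.range J, (1 - q ^ (j + 1))‖ := by
    intro J
    have h3 := prod_real_inv_le (norm_nonneg q) hq J
    have h4 : 0 < ∏ j ∈ Finset.range J, (1 - ‖q‖ ^ (j + 1)) := by
      refine Finset.prod_pos fun j _ => ?_
      have : ‖q‖ ^ (j + 1) < 1 := pow_lt_one₀ (norm_nonneg q) hq (by omega)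
      linarith
    have h5 : ∏ j ∈ Finset.range J, (1 - ‖q‖ ^ (j + 1)) ≤
        ‖∏ j ∈ Finset.range J, (1 - q ^ (j + 1))‖ := by
      rw [norm_prod]
      refine Finset.prod_le_prod (fun j _ => ?_) (fun j _ => ?_)
      · have : ‖q‖ ^ (j + 1) < 1 := pow_lt_one₀ (norm_nonneg q) hq (by omega)
        linarith
      · have := norm_sub_norm_le (1 : ℂ) (q ^ (j + 1))
        rw [norm_one, norm_pow] at this
        exact this
    refine le_trans ?_ h5
    rw [inv_le_comm₀ (Real.exp_pos _) h4]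
    exact h3
  have h3 := ge_of_tendsto' h1 h2
  have h4 : 0 < (Real.exp (‖q‖ / (1 - ‖q‖) ^ 2))⁻¹ := inv_pos.mpr (Real.exp_pos _)
  linarith

theorem p2 : P2Statement := by
  intro q hq
  have h0 := norm_nonneg q
  have hbound : ∀ J n : ℕ, ‖(bp J n : ℂ) * q ^ n‖ ≤ (bp n n : ℝ) * ‖q‖ ^ n := by
    intro J n
    rw [norm_mul, norm_pow, Complex.norm_natCast]
    have : (bp J n : ℝ) ≤ bp n n := by exact_mod_cast bp_le J n
    gcongr
  have hT : Tendsto (fun J => ∑' n, (bp J n : ℂ) * q ^ n) atTop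
      (𝓝 (∑' n, (bp n n : ℂ) * q ^ n)) := by
    refine tendsto_tsum_of_dominated_convergence (summable_bpp h0 hq) ?_ ?_
    · intro n
      refine tendsto_const_nhds.congr' ?_
      filter_upwards [eventually_ge_atTop n] with J hJ
      obtain ⟨k, rfl⟩ := Nat.exists_eq_add_of_le hJ
      rw [bp_stable]
    · exact Eventually.of_forall fun J n => hbound J n
  have hT2 : Tendsto (fun J => ∑' n, (bp J n : ℂ) * q ^ n) atTop (𝓝 ((QP q)⁻¹ ^ 2)) := by
    have h1 := ((tendsto_QP hq).inv₀ (QP_ne_zero hq)).pow 2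
    refine h1.congr fun J => ?_
    exact (hasSum_bp hq J).tsum_eq.symm
  have h2 := tendsto_nhds_unique hT hT2
  have h3 : Summable (fun n => (bp n n : ℂ) * q ^ n) := by
    refine Summable.of_norm ?_
    exact Summable.of_nonneg_of_le (fun n => norm_nonneg _) (fun n => hbound n n)
      (summable_bpp h0 hq)
  rw [← h2]
  exact h3.hasSum

end Pool.Agent.Helper48_UR
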