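import Pool.Agent.Helper21_UR.Stmts

/-!
# SYMM and MONO (MP_c97607_co)
-/

namespace Pool.Agent.Helper48_UR

open Pool.Agent.Helper21_UR

/-- Reflection. -/
def flip (x : List ℕ × ℕ × List ℕ) : List ℕ × ℕ × List ℕ :=
  (x.2.2.reverse, x.2.1, x.1.reverse)

lemma flip_flip (x : List ℕ × ℕ × List ℕ) : flip (flip x) = x := by
  simp [flip]

lemma flip_mem {m : ℤ} {n : ℕ} {x : List ℕ × ℕ × List ℕ} (h : x ∈ Uni m n) :
    flip x ∈ Uni (-m) n := by
  obtain ⟨h1, h2, h3, h4, h5, h6, h7⟩ := h
  refine ⟨?_, ?_, h3, ?_, ?_, ?_, ?_⟩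
  · simp only [flip, List.pairwise_reverse]
    exact h2
  · simp only [flip, List.pairwise_reverse]
    exact h1
  · intro a ha
    simp only [flip, List.mem_reverse] at ha ⊢
    exact h5 a ha
  · intro a ha
    simp only [flip, List.mem_reverse] at ha ⊢
    exact h4 a ha
  · simp only [flip, List.sum_reverse]
    omega
  · simp only [flip, List.length_reverse]
    omega

theorem symm : SymmStatement := by
  intro m n
  unfold u
  have h : Uni (-m) n = flip '' (Uni m n) := by
    ext x
    constructor
    · intro hx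
      refine ⟨flip x, ?_, flip_flip x⟩
      have := flip_mem hx
      rwa [neg_neg] at this
    · rintro ⟨y, hy, rfl⟩
      exact flip_mem hy
  rw [h]
  exact Set.ncard_image_of_injective _ (fun x y hxy => by
    have := congrArg flip hxy
    rwa [flip_flip, flip_flip] at this)

/-! ## MONO -/

lemma finite_lists (n : ℕ) : {l : List ℕ | l.length ≤ n ∧ ∀ a ∈ l, a ≤ n}.Finite := by
  have h : {l : List ℕ | l.length ≤ n ∧ ∀ a ∈ l, a ≤ n} ⊆
      (List.map (fun i : Fin (n + 1) => (i : ℕ))) '' {l : List (Fin (n + 1)) | l.length ≤ n} := by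
    rintro l ⟨hl, hb⟩
    refine ⟨l.attach.map (fun a => ⟨a.1, by have := hb a.1 a.2; omega⟩), ?_, ?_⟩
    · simpa using hl
    · rw [List.map_map]
      conv_rhs => rw [← List.attach_map_subtype_val l]
      rfl
  exact (Set.Finite.image _ (List.finite_length_le _ n)).subset h

lemma length_le_sum {l : List ℕ} (h : ∀ a ∈ l, 1 ≤ a) : l.length ≤ l.sum := by
  induction l with
  | nil => simp
  | cons a l ih =>
    simp only [List.length_cons, List.sum_cons]
    have h1 := h a (by simp)
    have h2 := ih (fun b hb => h b (by simp [hb]))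
    omega

lemma two_length_le_sum {l : List ℕ} (h : ∀ a ∈ l, 2 ≤ a) : 2 * l.length ≤ l.sum := by
  induction l with
  | nil => simp
  | cons a l ih =>
    simp only [List.length_cons, List.sum_cons]
    have h1 := h a (by simp)
    have h2 := ih (fun b hb => h b (by simp [hb]))
    omega

lemma uni_finite (m : ℤ) (n : ℕ) : (Uni m n).Finite := by
  have h : Uni m n ⊆ {l : List ℕ | l.length ≤ n ∧ ∀ a ∈ l, a ≤ n} ×ˢ
      ((Finset.range (n + 1) : Finset ℕ) : Set ℕ) ×ˢ
      {l : List ℕ | l.length ≤ n ∧ ∀ a ∈ l, a ≤ n} := by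
    rintro ⟨a, c, b⟩ ⟨h1, h2, h3, h4, h5, h6, h7⟩
    simp only at h1 h2 h3 h4 h5 h6 h7
    have ha := length_le_sum (l := a) (fun x hx => (h4 x hx).1)
    have hb := length_le_sum (l := b) (fun x hx => (h5 x hx).1)
    refine ⟨⟨by simp only; omega, fun x hx => ?_⟩, ?_, ⟨by simp only; omega, fun x hx => ?_⟩⟩
    · have := (h4 x hx).2
      omega
    · simp only [Finset.coe_range, Set.mem_Iio]
      omega
    · have := (h5 x hx).2
      omega
  exact ((finite_lists n).prod ((Finset.finite_toSet _).prod (finite_lists n))).subset h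

/-- Append a part `1` on the right. -/
def app1 (x : List ℕ × ℕ × List ℕ) : List ℕ × ℕ × List ℕ := (x.1, x.2.1, x.2.2 ++ [1])

lemma app1_inj : Function.Injective app1 := by
  rintro ⟨a, c, b⟩ ⟨a', c', b'⟩ h
  simp only [app1, Prod.mk.injEq, List.append_cancel_right_eq] at h
  obtain ⟨rfl, rfl, rfl⟩ := h
  rfl

lemma app1_mem {m : ℤ} {n : ℕ} {x : List ℕ × ℕ × List ℕ} (h : x ∈ Uni m n) :
    app1 x ∈ Uni (m + 1) (n + 1) := by
  obtain ⟨h1, h2, h3, h4, h5, h6, h7⟩ := h
  refine ⟨h1, ?_, h3, h4, ?_, ?_, ?_⟩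
  · simp only [app1]
    rw [List.pairwise_append]
    refine ⟨h2, by simp, ?_⟩
    intro a ha b hb
    simp only [List.mem_singleton] at hb
    subst hb
    exact (h5 a ha).1
  · intro a ha
    simp only [app1, List.mem_append, List.mem_singleton] at ha ⊢
    rcases ha with ha | ha
    · exact h5 a ha
    · subst ha
      exact ⟨le_refl _, h3⟩
  · simp only [app1, List.sum_append, List.sum_singleton]
    omega
  · simp only [app1, List.length_append, List.length_singleton]
    push_cast
    omega

lemma app1_surj {m n : ℕ} (hn : n ≤ 2 * m + 2) {x : List ℕ × ℕ × List ℕ}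
    (h : x ∈ Uni ((m : ℤ) + 1) (n + 1)) : ∃ y ∈ Uni (m : ℤ) n, app1 y = x := by
  obtain ⟨a, c, b⟩ := x
  obtain ⟨h1, h2, h3, h4, h5, h6, h7⟩ := h
  simp only at h1 h2 h3 h4 h5 h6 h7
  rcases List.eq_nil_or_concat b with hb | ⟨b', e, hb⟩
  · subst hb
    simp at h7
    omega
  · subst hb
    rw [List.concat_eq_append] at h2 h5 h6 h7 ⊢
    rw [List.pairwise_append] at h2
    obtain ⟨g1, -, g3⟩ := h2
    have he : 1 ≤ e ∧ e ≤ c := h5 e (by simp)
    have hee : e = 1 := by
      by_contra hne
      have he2 : 2 ≤ e := by omega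
      have hb2 := two_length_le_sum (l := b') (fun y hy => by
        have := g3 y hy e (by simp)
        omega)
      have ha := length_le_sum (l := a) (fun x hx => (h4 x hx).1)
      simp only [List.sum_append, List.sum_singleton, List.length_append,
        List.length_singleton] at h6 h7
      push_cast at h7
      omega
    subst hee
    refine ⟨(a, c, b'), ⟨h1, g1, h3, h4, ?_, ?_, ?_⟩, rfl⟩
    · intro y hy
      exact h5 y (by simp only [List.mem_append]; exact Or.inl hy)
    · simp only [List.sum_append, List.sum_singleton] at h6 ⊢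
      omega
    · simp only [List.length_append, List.length_singleton] at h7 ⊢
      push_cast at h7
      omega

theorem mono : MonoStatement := by
  refine ⟨uni_finite, ?_, ?_⟩
  · intro m n
    exact Set.ncard_le_ncard_of_injOn app1 (fun x hx => app1_mem hx) (app1_inj.injOn)
      (uni_finite _ _)
  · intro m n hn
    unfold u
    have h : Uni ((m : ℤ) + 1) (n + 1) = app1 '' (Uni (m : ℤ) n) := by
      ext x
      constructor
      · intro hx
        obtain ⟨y, hy, hyx⟩ := app1_surj hn hx
        exact ⟨y, hy, hyx⟩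
      · rintro ⟨y, hy, rfl⟩
        exact app1_mem hy
    rw [h]
    exact (Set.ncard_image_of_injective _ app1_inj).symm

end Pool.Agent.Helper48_UR
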