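import Pool.Agent.Helper48_UR.Symm

/-!
# UCOUNT (MP_c97607_co)
-/

namespace Pool.Agent.Helper48_UR

open Pool.Agent.Helper21_UR

/-- Weakly decreasing lists of length `r`, entries in `[1, c]`, sum `s`. -/
def WG (c r s : ℕ) : Set (List ℕ) :=
  {l | l.Pairwise (· ≥ ·) ∧ (∀ a ∈ l, 1 ≤ a ∧ a ≤ c) ∧ l.length = r ∧ l.sum = s}

/-- Weakly increasing lists of length `r`, entries in `[1, c]`, sum `s`. -/
def WL (c r s : ℕ) : Set (List ℕ) :=
  {l | l.Pairwise (· ≤ ·) ∧ (∀ a ∈ l, 1 ≤ a ∧ a ≤ c) ∧ l.length = r ∧ l.sum = s}

lemma wg_finite (c r s : ℕ) : (WG c r s).Finite := by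
  refine (finite_lists (r + c)).subset ?_
  rintro l ⟨-, h2, h3, -⟩
  exact ⟨by omega, fun a ha => by have := (h2 a ha).2; omega⟩

lemma wl_finite (c r s : ℕ) : (WL c r s).Finite := by
  refine (finite_lists (r + c)).subset ?_
  rintro l ⟨-, h2, h3, -⟩
  exact ⟨by omega, fun a ha => by have := (h2 a ha).2; omega⟩

lemma wl_card (c r s : ℕ) : (WL c r s).ncard = (WG c r s).ncard := by
  have h : WL c r s = List.reverse '' (WG c r s) := by
    ext l
    constructor
    · rintro ⟨h1, h2, h3, h4⟩
      refine ⟨l.reverse, ⟨?_, ?_, ?_, ?_⟩, by simp⟩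
      · rw [List.pairwise_reverse]
        exact h1
      · intro a ha
        exact h2 a (by simpa using ha)
      · simpa using h3
      · rw [List.sum_reverse]
        exact h4
    · rintro ⟨k, ⟨h1, h2, h3, h4⟩, rfl⟩
      refine ⟨?_, ?_, ?_, ?_⟩
      · rw [List.pairwise_reverse]
        exact h1
      · intro a ha
        exact h2 a (by simpa using ha)
      · simpa using h3
      · rw [List.sum_reverse]
        exact h4
  rw [h]
  exact Set.ncard_image_of_injective _ List.reverse_injective

lemma wg_card : ∀ c r s : ℕ, (WG c r s).ncard = Lc c r s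
  | 0, 0, s => by
    rw [Lc]
    split_ifs with hs
    · subst hs
      have : WG 0 0 0 = {[]} := by
        ext l
        constructor
        · rintro ⟨-, -, h3, -⟩
          exact List.length_eq_zero_iff.mp h3
        · rintro rfl
          exact ⟨List.Pairwise.nil, by simp, rfl, rfl⟩
      rw [this, Set.ncard_singleton]
    · have : WG 0 0 s = ∅ := by
        ext l
        constructor
        · rintro ⟨-, -, h3, h4⟩
          rw [List.length_eq_zero_iff.mp h3] at h4
          exact hs (by simpa using h4.symm)
        · intro h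
          exact absurd h (Set.notMem_empty _)
      rw [this, Set.ncard_empty]
  | 0, r + 1, s => by
    rw [Lc]
    have : WG 0 (r + 1) s = ∅ := by
      ext l
      constructor
      · rintro ⟨-, h2, h3, h4⟩
        cases l with
        | nil => simp at h3
        | cons a l =>
          have := h2 a (by simp)
          omega
      · intro h
        exact absurd h (Set.notMem_empty _)
    rw [this, Set.ncard_empty]
  | c + 1, 0, s => by
    rw [Lc]
    split_ifs with hs
    · subst hs
      have : WG (c + 1) 0 0 = {[]} := by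
        ext l
        constructor
        · rintro ⟨-, -, h3, -⟩
          exact List.length_eq_zero_iff.mp h3
        · rintro rfl
          exact ⟨List.Pairwise.nil, by simp, rfl, rfl⟩
      rw [this, Set.ncard_singleton]
    · have : WG (c + 1) 0 s = ∅ := by
        ext l
        constructor
        · rintro ⟨-, -, h3, h4⟩
          rw [List.length_eq_zero_iff.mp h3] at h4
          exact hs (by simpa using h4.symm)
        · intro h
          exact absurd h (Set.notMem_empty _)
      rw [this, Set.ncard_empty]
  | c + 1, r + 1, s => by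
    rw [Lc, ← wg_card c (r + 1) s]
    split_ifs with hs
    · rw [← wg_card (c + 1) r (s - (c + 1))]
      have h : WG (c + 1) (r + 1) s =
          WG c (r + 1) s ∪ (List.cons (c + 1)) '' (WG (c + 1) r (s - (c + 1))) := by
        ext l
        constructor
        · rintro ⟨h1, h2, h3, h4⟩
          cases l with
          | nil => simp at h3
          | cons a l =>
            rw [List.pairwise_cons] at h1
            obtain ⟨g1, g2⟩ := h1
            have ha := h2 a (by simp)
            by_cases hac : a = c + 1
            · right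
              refine ⟨l, ⟨g2, fun b hb => h2 b (by simp [hb]), ?_, ?_⟩, by rw [hac]⟩
              · simpa using h3
              · simp only [List.sum_cons] at h4
                omega
            · left
              refine ⟨?_, ?_, h3, h4⟩
              · rw [List.pairwise_cons]
                exact ⟨g1, g2⟩
              · intro b hb
                rw [List.mem_cons] at hb
                rcases hb with hb | hb
                · subst hb
                  omega
                · have := h2 b (by simp [hb])
                  have := g1 b hb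
                  omega
        · rintro (⟨h1, h2, h3, h4⟩ | ⟨k, ⟨h1, h2, h3, h4⟩, rfl⟩)
          · exact ⟨h1, fun a ha => by have := h2 a ha; omega, h3, h4⟩
          · refine ⟨?_, ?_, by simp [h3], ?_⟩
            · rw [List.pairwise_cons]
              exact ⟨fun b hb => (h2 b hb).2, h1⟩
            · intro b hb
              rw [List.mem_cons] at hb
              rcases hb with hb | hb
              · subst hb
                omega
              · exact h2 b hb
            · simp only [List.sum_cons]
              omega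
      rw [h, Set.ncard_union_eq _ (wg_finite _ _ _) ((wg_finite _ _ _).image _),
        Set.ncard_image_of_injective _ (fun x y hxy => by simpa using hxy)]
      rw [Set.disjoint_left]
      rintro l ⟨-, h2, -, -⟩ ⟨k, -, rfl⟩
      have := h2 (c + 1) (by simp)
      omega
    · rw [add_zero]
      congr 1
      ext l
      constructor
      · rintro ⟨h1, h2, h3, h4⟩
        refine ⟨h1, fun a ha => ⟨(h2 a ha).1, ?_⟩, h3, h4⟩
        have := List.single_le_sum (l := l) (by simp) a ha
        have := (h2 a ha).2
        omega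
      · rintro ⟨h1, h2, h3, h4⟩
        exact ⟨h1, fun a ha => by have := h2 a ha; omega, h3, h4⟩
termination_by c r _ => (c, r)

/-- The finset version of `WL`. -/
noncomputable def FL (c r s : ℕ) : Finset (List ℕ) := (wl_finite c r s).toFinset
/-- The finset version of `WG`. -/
noncomputable def FG (c r s : ℕ) : Finset (List ℕ) := (wg_finite c r s).toFinset

lemma card_FL (c r s : ℕ) : (FL c r s).card = Lc c r s := by
  rw [← wg_card, ← wl_card, FL, Set.ncard_eq_toFinset_card _ (wl_finite c r s)]

lemma card_FG (c r s : ℕ) : (FG c r s).card = Lc c r s := by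
  rw [← wg_card, FG, Set.ncard_eq_toFinset_card _ (wg_finite c r s)]

lemma mem_FL {c r s : ℕ} {l : List ℕ} : l ∈ FL c r s ↔ l ∈ WL c r s := by
  simp [FL]

lemma mem_FG {c r s : ℕ} {l : List ℕ} : l ∈ FG c r s ↔ l ∈ WG c r s := by
  simp [FG]

open Classical in
/-- The block with given peak `c + 1`, `r` and sums `p`. -/
noncomputable def Bl (m c r : ℕ) (p : ℕ × ℕ) : Finset (List ℕ × ℕ × List ℕ) :=
  ((FL (c + 1) r p.1) ×ˢ (FG (c + 1) (r + m) p.2)).image (fun ab => (ab.1, c + 1, ab.2))

lemma mem_Bl {m c r : ℕ} {p : ℕ × ℕ} {x : List ℕ × ℕ × List ℕ} :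
    x ∈ Bl m c r p ↔ x.1 ∈ WL (c + 1) r p.1 ∧ x.2.1 = c + 1 ∧ x.2.2 ∈ WG (c + 1) (r + m) p.2 := by
  obtain ⟨a, d, b⟩ := x
  simp only [Bl, Finset.mem_image, Finset.mem_product, mem_FL, mem_FG, Prod.mk.injEq, Prod.exists]
  constructor
  · rintro ⟨a', b', ⟨h1, h2⟩, rfl, rfl, rfl⟩
    exact ⟨h1, rfl, h2⟩
  · rintro ⟨h1, h2, h3⟩
    exact ⟨a, b, ⟨h1, h3⟩, rfl, h2.symm, rfl⟩

lemma card_Bl (m c r : ℕ) (p : ℕ × ℕ) :
    (Bl m c r p).card = Lc (c + 1) r p.1 * Lc (c + 1) (r + m) p.2 := by
  rw [Bl, Finset.card_image_of_injective, Finset.card_product, card_FL, card_FG]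
  rintro ⟨a, b⟩ ⟨a', b'⟩ h
  simp only [Prod.mk.injEq, true_and] at h
  rw [h.1, h.2]

open Classical in
theorem ucount : UcountStatement := by
  intro m n
  have h : Uni (m : ℤ) n = ((Finset.range n).biUnion fun c => (Finset.range (n + 1)).biUnion fun r =>
      (Finset.HasAntidiagonal.antidiagonal (n - 1 - c)).biUnion fun p => Bl m c r p :
      Finset (List ℕ × ℕ × List ℕ)) := by
    ext x
    simp only [Finset.coe_biUnion, Set.mem_iUnion, Finset.mem_coe, mem_Bl, Finset.mem_range,
      exists_prop]
    constructor
    · rintro ⟨h1, h2, h3, h4, h5, h6, h7⟩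
      have ha := length_le_sum (l := x.1) (fun y hy => (h4 y hy).1)
      refine ⟨x.2.1 - 1, by omega, x.1.length, by omega, (x.1.sum, x.2.2.sum), ?_, ?_, ?_, ?_⟩
      · rw [Finset.HasAntidiagonal.mem_antidiagonal]
        omega
      · rw [Nat.sub_add_cancel h3]
        exact ⟨h1, h4, rfl, rfl⟩
      · omega
      · rw [Nat.sub_add_cancel h3]
        exact ⟨h2, h5, by omega, rfl⟩
    · rintro ⟨c, hc, r, hr, p, hp, ⟨h1, h2, h3, h4⟩, h5, ⟨h6, h7, h8, h9⟩⟩
      rw [Finset.HasAntidiagonal.mem_antidiagonal] at hp
      refine ⟨h1, h6, by omega, ?_, ?_, by omega, by omega⟩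
      · rw [h5]
        exact h2
      · rw [h5]
        exact h7
  unfold u
  rw [h, Set.ncard_coe_finset, Finset.card_biUnion]
  · refine Finset.sum_congr rfl fun c _ => ?_
    rw [Finset.card_biUnion]
    · refine Finset.sum_congr rfl fun r _ => ?_
      rw [Finset.card_biUnion]
      · exact Finset.sum_congr rfl fun p _ => card_Bl m c r p
      · intro p _ p' _ hpp
        rw [Function.onFun, Finset.disjoint_left]
        intro x hx hx'
        rw [mem_Bl] at hx hx'
        exact hpp (Prod.ext (hx.1.2.2.2.symm.trans hx'.1.2.2.2)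
          (hx.2.2.2.2.2.symm.trans hx'.2.2.2.2.2))
    · intro r _ r' _ hrr
      rw [Function.onFun, Finset.disjoint_left]
      intro x hx hx'
      rw [Finset.mem_biUnion] at hx hx'
      obtain ⟨p, -, hp⟩ := hx
      obtain ⟨p', -, hp'⟩ := hx'
      rw [mem_Bl] at hp hp'
      exact hrr (hp.1.2.2.1.symm.trans hp'.1.2.2.1)
  · intro c _ c' _ hcc
    rw [Function.onFun, Finset.disjoint_left]
    intro x hx hx'
    rw [Finset.mem_biUnion] at hx hx'
    obtain ⟨r, -, hx⟩ := hx
    obtain ⟨r', -, hx'⟩ := hx'
    rw [Finset.mem_biUnion] at hx hx'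
    obtain ⟨p, -, hp⟩ := hx
    obtain ⟨p', -, hp'⟩ := hx'
    rw [mem_Bl] at hp hp'
    have := hp.2.1.symm.trans hp'.2.1
    exact hcc (by omega)

end Pool.Agent.Helper48_UR
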